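import Pool.Agent.PVA.MUL
import Pool.Agent.PVA.G.GBA
import Pool.Agent.PVA.G.GCA21
import Pool.Agent.PVA.G.GCN
import Pool.Agent.PVA.G.GCZ
import Pool.Agent.PVA.G.GFI
import Pool.Agent.PVA.G.GHE
import Pool.Agent.PVA.G.GIN
import Pool.Agent.PVA.G.GSK
import Pool.Agent.PVA.G.GSP
import Pool.Agent.PVA.G.GSU
import Pool.Agent.PVA.G.GTH
import Pool.Agent.PVA.G.GZD
import Pool.Agent.PVA.G.INS
import Pool.Agent.PVA.G.SCH

/-!
# The centre of a modular affine vertex algebra is never its `p`-centre (`p` odd)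
-/

namespace Pool.Agent.Results.MP_4bfeea_al.NeverThePCentre

open Pool.Agent.PVA.G LieAlgebra.SpecialLinear

/-- The general statement. -/
theorem general (p : ℕ) [Fact p.Prime] (hp : 3 ≤ p) (K : Type) [Field K]
    [IsAlgClosed K] [CharP K p] (g : Type) [LieRing g] [LieAlgebra K g] [FiniteDimensional K g]
    [LieAlgebra.IsSimple K g] (β : InvForm K g)
    (hnd : ∀ x : g, (∀ y : g, β.B x y = 0) → x = 0) (P : g → g)
    (hP : ∀ x y : g, ⁅P x, y⁆ = ((LieAlgebra.ad K g x) ^ p) y) (κ : K) :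
    ∃ v ∈ centre β κ, v ∉ pCentre β p P κ := by
  have h2 : (2 : K) ≠ 0 := by
    intro h
    have h1 : ((2 : ℕ) : K) = 0 := by exact_mod_cast h
    rw [CharP.cast_eq_zero_iff K p] at h1
    exact absurd (Nat.le_of_dvd (by norm_num) h1) (by omega)
  obtain ⟨hv, n, b, b', hd⟩ := t_SCH K g β hnd h2
  exact t_GFI (t_GSU t_GBA (t_GSK t_GBA)) t_GCN t_GIN (t_GSP t_GBA) t_GHE t_GTH
    Pool.Agent.PVA.t_MUL (t_GZD (t_GCZ t_GBA)) K g p β P hp hP hv n b b' hd (t_GCA21 K g) κ

/-- Let `K` be an algebraically closed field of odd characteristic `p`, let `g` be a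
finite-dimensional simple Lie algebra over `K` with a non-degenerate invariant symmetric form `β`
and `p`-map `P`.  Then at every level `κ` the centre of the affine vertex algebra `V^κ(g)` contains
a vector outside its `p`-centre.  In particular this holds for `sl_2` with the trace form and the
`p`-th power of matrices. -/
theorem result : ∀ (p : ℕ) [Fact p.Prime], 3 ≤ p → ∀ (K : Type) [Field K] [IsAlgClosed K]
    [CharP K p],
    (∀ (g : Type) [LieRing g] [LieAlgebra K g] [FiniteDimensional K g]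
      [LieAlgebra.IsSimple K g] (β : InvForm K g),
      (∀ x : g, (∀ y : g, β.B x y = 0) → x = 0) → ∀ P : g → g,
      (∀ x y : g, ⁅P x, y⁆ = ((LieAlgebra.ad K g x) ^ p) y) →
      ∀ κ : K, ∃ v ∈ centre β κ, v ∉ pCentre β p P κ) ∧
    ∃ (β : InvForm K (sl (Fin 2) K)) (P : sl (Fin 2) K → sl (Fin 2) K),
      (∀ x y, β.B x y = Matrix.trace (x.1 * y.1)) ∧ (∀ x, (P x).1 = x.1 ^ p) ∧
      ∀ κ : K, ∃ v ∈ centre β κ, v ∉ pCentre β p P κ := by
  intro p _ hp K _ _ _
  refine ⟨fun g _ _ _ _ β hnd P hP κ => general p hp K g β hnd P hP κ, ?_⟩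
  obtain ⟨hs, hf, β, P, h1, h2, h3, h4⟩ := t_INS K p hp
  exact ⟨β, P, h1, h2, fun κ => general p hp K _ β h3 P h4 κ⟩

end Pool.Agent.Results.MP_4bfeea_al.NeverThePCentre
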